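import Pool.Agent.Q156.MassEllipsoid

/-!
The least upper bound of Gromov's mass of the unit ball of a norm is the volume of the Euclidean
unit ball, and it is attained exactly by the ellipsoids.
-/

set_option autoImplicit false

open MeasureTheory Set Metric
open scoped ENNReal Nat Pointwise

namespace Pool.Agent.Results.MP_77d991_gt.SharpUpperBoundEllipsoids

open Pool.Agent.Q156.MaxDet

variable {n : ℕ}

/-- A body of maximal mass is extremal for the determinant inequality. -/
theorem ext_of_mass (hn : 0 < n) {M : Set (En n)} (hM : IsSymmetricBody M)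
    (h : gromovMass M = (volume (ball (0 : En n) 1)).toReal) : ∃ m : ℝ, Ext m M := by
  obtain ⟨h1, h2, h3, h4⟩ := hM
  obtain ⟨s, hs⟩ : ∃ s, s = sSup (crossVolumes M) := ⟨_, rfl⟩
  have hk : (0 : ℝ) < 2 ^ n / (n ! : ℝ) := by positivity
  have hball : volume (ball (0 : En n) 1) ≠ ⊤ := measure_ball_lt_top.ne
  have hballpos : 0 < (volume (ball (0 : En n) 1)).toReal :=
    ENNReal.toReal_pos (Metric.isOpen_ball.measure_pos volume ⟨0, mem_ball_self one_pos⟩).ne' hball
  have hvolfin : volume M ≠ ⊤ := h1.measure_lt_top.ne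
  have hsnn : 0 ≤ s := by
    rw [hs]
    apply Real.sSup_nonneg
    rintro t ⟨v, _, _, rfl⟩
    exact ENNReal.toReal_nonneg
  have hs0 : s ≠ 0 := by
    intro h0
    unfold gromovMass at h
    rw [← hs, h0, div_zero, mul_zero] at h
    linarith
  have hspos : 0 < s := lt_of_le_of_ne hsnn (Ne.symm hs0)
  refine ⟨s / (2 ^ n / (n ! : ℝ)), ⟨h1, h2, h3, h4, ?_, ?_⟩⟩
  · intro v hv
    rw [le_div_iff₀ hk]
    rcases eq_or_ne (adet v) 0 with h0 | h0
    · rw [h0, zero_mul]; exact hsnn
    · rw [mul_comm, hs]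
      exact le_csSup (bddAbove_crossVolumes hn h1)
        (crossVolumes_mem hn ((adet_ne_zero_iff v).mp h0) hv)
  · have h5 : (volume M).toReal =
        s / (2 ^ n / (n ! : ℝ)) * (volume (ball (0 : En n) 1)).toReal := by
      rw [← h]
      unfold gromovMass
      rw [← hs]
      field_simp
    rw [← ENNReal.ofReal_toReal hvolfin, h5, ENNReal.ofReal_mul (by positivity),
      ENNReal.ofReal_toReal hball]

/-- Determinants under a linear map. -/
theorem adet_comp (T : En n ≃ₗ[ℝ] En n) (v : Fin n → En n) :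
    adet (fun i => T (v i)) = |LinearMap.det (T : En n →ₗ[ℝ] En n)| * adet v := by
  unfold adet
  have h1 := (EuclideanSpace.basisFun (Fin n) ℝ).toBasis.det_comp (T : En n →ₗ[ℝ] En n) v
  rw [← abs_mul, ← h1]
  rfl

/-- The mass is invariant under linear maps. -/
theorem mass_image (hn : 0 < n) (T : En n ≃ₗ[ℝ] En n) (M : Set (En n)) :
    gromovMass (T '' M) = gromovMass M := by
  obtain ⟨d, hd⟩ : ∃ d, d = |LinearMap.det (T : En n →ₗ[ℝ] En n)| := ⟨_, rfl⟩
  have hdpos : 0 < d := by
    rw [hd]; exact abs_pos.mpr (LinearEquiv.isUnit_det' T).ne_zero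
  have hk : (0 : ℝ) < 2 ^ n / (n ! : ℝ) := by positivity
  have hcr : ∀ v : Fin n → En n, (volume (crossPolytope v)).toReal = 2 ^ n / (n ! : ℝ) * adet v := by
    intro v
    rw [volume_cross hn, ENNReal.toReal_ofReal]
    have := adet_nonneg v
    positivity
  have hset : crossVolumes (T '' M) = d • crossVolumes M := by
    ext t
    rw [mem_smul_set]
    constructor
    · rintro ⟨v, hv, hvM, rfl⟩
      refine ⟨(volume (crossPolytope fun i => T.symm (v i))).toReal,
        ⟨fun i => T.symm (v i), ?_, ?_, rfl⟩, ?_⟩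
      · exact hv.map' (T.symm : En n →ₗ[ℝ] En n) (LinearEquiv.ker _)
      · intro i
        obtain ⟨x, hx, hxi⟩ := hvM i
        show T.symm (v i) ∈ M
        rw [← hxi, T.symm_apply_apply]; exact hx
      · rw [hcr, hcr, smul_eq_mul]
        have h1 := adet_comp T (fun i => T.symm (v i))
        simp only [T.apply_symm_apply] at h1
        rw [h1, ← hd]; ring
    · rintro ⟨_, ⟨v, hv, hvM, rfl⟩, rfl⟩
      refine ⟨fun i => T (v i), ?_, fun i => ⟨v i, hvM i, rfl⟩, ?_⟩
      · exact hv.map' (T : En n →ₗ[ℝ] En n) (LinearEquiv.ker _)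
      · rw [hcr, hcr, smul_eq_mul, adet_comp, ← hd]; ring
  have hvol : (volume (T '' M)).toReal = d * (volume M).toReal := by
    have h1 := Measure.addHaar_image_linearMap (volume : Measure (En n)) (T : En n →ₗ[ℝ] En n) M
    have h2 : (T : En n →ₗ[ℝ] En n) '' M = T '' M := rfl
    rw [h2, ← hd] at h1
    rw [h1, ENNReal.toReal_mul, ENNReal.toReal_ofReal hdpos.le]
  unfold gromovMass
  rw [hset, hvol, Real.sSup_smul_of_nonneg hdpos.le, smul_eq_mul,
    mul_div_mul_left _ _ hdpos.ne']

/-- **Result.**  For every `n ≥ 1` the greatest value of Gromov's mass of an origin-symmetric convex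
body in `ℝ^n` is the volume of the Euclidean unit ball, and it is attained exactly by the
(origin-centred) ellipsoids. -/
theorem result (n : ℕ) (hn : 0 < n) :
    IsGreatest {t : ℝ | ∃ M : Set (EuclideanSpace ℝ (Fin n)), IsSymmetricBody M ∧ t = gromovMass M}
      (√Real.pi ^ n / Real.Gamma (n / 2 + 1)) ∧
    ∀ M : Set (EuclideanSpace ℝ (Fin n)), IsSymmetricBody M →
      (gromovMass M = √Real.pi ^ n / Real.Gamma (n / 2 + 1) ↔
        ∃ T : EuclideanSpace ℝ (Fin n) ≃ₗ[ℝ] EuclideanSpace ℝ (Fin n),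
          M = T '' closedBall (0 : EuclideanSpace ℝ (Fin n)) 1) := by
  have hk : (volume (ball (0 : EuclideanSpace ℝ (Fin n)) 1)).toReal =
      √Real.pi ^ n / Real.Gamma (n / 2 + 1) := by
    have : Nonempty (Fin n) := ⟨⟨0, hn⟩⟩
    rw [EuclideanSpace.volume_ball, ENNReal.ofReal_one, one_pow, one_mul, Fintype.card_fin,
      ENNReal.toReal_ofReal]
    have : 0 < Real.Gamma (n / 2 + 1) := Real.Gamma_pos_of_pos (by positivity)
    positivity
  rw [← hk]
  refine ⟨⟨?_, ?_⟩, ?_⟩
  · exact ⟨closedBall 0 1, ball_body, (mass_ball hn).symm⟩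
  · rintro t ⟨M, hM, rfl⟩
    exact mass_le hn hM
  · intro M hM
    constructor
    · intro h
      obtain ⟨m, hm⟩ := ext_of_mass hn hM h
      exact hm.ellipsoid hn
    · rintro ⟨T, rfl⟩
      rw [mass_image hn T, mass_ball hn]

end Pool.Agent.Results.MP_77d991_gt.SharpUpperBoundEllipsoids
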